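import Pool.Agent.NestMSS.Main
set_option autoImplicit false
open Finset Matrix
set_option linter.unusedSectionVars false

namespace Nest57

def sg (b : Bool) : ℤ := if b then 1 else -1

def sgr (b : Bool) : ℝ := (sg b : ℝ)

theorem sgr_sq (b : Bool) : sgr b * sgr b = 1 := by
  cases b <;> simp [sgr, sg]

theorem sum_sg : ∀ p q : Bool × Bool,
    ∑ σ : Bool × Bool → Bool, sg (σ p) * sg (σ q) = if p = q then 16 else 0 := by
  decide +kernel

theorem sum_sgr (p q : Bool × Bool) :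
    ∑ σ : Bool × Bool → Bool, sgr (σ p) * sgr (σ q) = if p = q then 16 else 0 := by
  have h := congrArg (fun z : ℤ => (z : ℝ)) (sum_sg p q)
  simp only [Int.cast_sum, Int.cast_mul] at h
  unfold sgr
  rw [h]
  split_ifs <;> simp

variable {γ n : Type*} [Fintype γ] [DecidableEq γ] [Fintype n] [DecidableEq n]

theorem complete (w : γ → Bool → n → ℝ)
    (hQ : ∀ y : n → ℝ, ∑ c, ∑ a, (∑ i, w c a i * y i)^2 ≤ ∑ i, y i^2) :
    ∃ (m : ℕ) (B : Fin m → n → ℝ), ∀ i j,
      ∑ l, B l i * B l j = (if i = j then 1 else 0) - ∑ c, ∑ a, w c a i * w c a j := by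
  let K : Matrix n n ℝ := 1 - ∑ c, ∑ a, Matrix.vecMulVec (w c a) (w c a)
  have hKs : K.PosSemidef := by
    refine Matrix.PosSemidef.of_dotProduct_mulVec_nonneg ?_ ?_
    · ext i j
      simp only [K, Matrix.conjTranspose_apply, Matrix.sub_apply, Matrix.sum_apply,
        Matrix.vecMulVec_apply, star_trivial, Matrix.one_apply]
      congr 1
      · simp [eq_comm]
      · exact Finset.sum_congr rfl fun c _ => Finset.sum_congr rfl fun a _ => mul_comm _ _
    · intro y
      have := hQ y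
      have e : star y ⬝ᵥ (K *ᵥ y) = ∑ i, y i ^2 - ∑ c, ∑ a, (∑ i, w c a i * y i)^2 := by
        simp only [K, Matrix.sub_mulVec, Matrix.one_mulVec, dotProduct_sub, star_trivial]
        congr 1
        · simp [dotProduct, sq]
        · rw [Matrix.sum_mulVec, dotProduct_sum]
          refine Finset.sum_congr rfl fun c _ => ?_
          rw [Matrix.sum_mulVec, dotProduct_sum]
          refine Finset.sum_congr rfl fun a _ => ?_
          rw [Matrix.vecMulVec_mulVec]
          simp only [dotProduct, MulOpposite.smul_eq_mul_unop, Pi.smul_apply,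
            MulOpposite.unop_op, sq]
          rw [Finset.sum_mul]
          exact Finset.sum_congr rfl fun i _ => by ring
      rw [e]; linarith
  obtain ⟨m, B, hB⟩ := (Matrix.posSemidef_iff_eq_sum_vecMulVec).1 hKs
  refine ⟨m, B, fun i j => ?_⟩
  have := congrFun (congrFun hB i) j
  simp only [K, Matrix.sub_apply, Matrix.sum_apply, Matrix.vecMulVec_apply, Matrix.one_apply,
    star_trivial] at this
  linarith

/-- the vectors given to the selection theorem -/
noncomputable def vv (w : γ → Bool → Bool → n → ℝ) (m : Bool → ℕ)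
    (B : ∀ k, Fin (m k) → n → ℝ) (R : ℕ) :
    (γ ⊕ (Σ p : Bool × Bool, Fin (m p.2) × Fin R)) → (Bool × (Bool × Bool → Bool)) →
      ((Bool × Bool) × n) → ℝ
  | Sum.inl c, a, x => Real.sqrt 2 * (sgr (a.2 x.1) * w c (xor a.1 x.1.1) x.1.2 x.2)
  | Sum.inr j, _, x => if j.1 = x.1 then (Real.sqrt R)⁻¹ * B j.1.2 j.2.1 x.2 else 0

theorem sum_bool_xor (b : Bool) (f : Bool → ℝ) : ∑ t, f (xor t b) = ∑ t, f t := by
  cases b <;> simp [add_comm]

theorem vv_sum_inl (w : γ → Bool → Bool → n → ℝ) (m : Bool → ℕ)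
    (B : ∀ k, Fin (m k) → n → ℝ) (R : ℕ) (c : γ) (x y : (Bool × Bool) × n) :
    ∑ a, vv w m B R (Sum.inl c) a x * vv w m B R (Sum.inl c) a y =
      if x.1 = y.1 then 32 * ∑ a, w c a x.1.2 x.2 * w c a x.1.2 y.2 else 0 := by
  obtain ⟨p, i⟩ := x
  obtain ⟨q, j⟩ := y
  have h2 : Real.sqrt 2 * Real.sqrt 2 = 2 := Real.mul_self_sqrt (by norm_num)
  rw [Fintype.sum_prod_type]
  have : ∀ t : Bool, ∑ σ : Bool × Bool → Bool,
      vv w m B R (Sum.inl c) (t, σ) (p, i) * vv w m B R (Sum.inl c) (t, σ) (q, j) =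
      2 * (w c (xor t p.1) p.2 i * w c (xor t q.1) q.2 j) * ∑ σ : Bool × Bool → Bool,
        sgr (σ p) * sgr (σ q) := by
    intro t
    rw [Finset.mul_sum]
    refine Finset.sum_congr rfl fun σ _ => ?_
    simp only [vv]
    linear_combination (sgr (σ p) * sgr (σ q) * w c (xor t p.1) p.2 i * w c (xor t q.1) q.2 j) * h2
  simp only [this, sum_sgr]
  by_cases hpq : p = q
  · subst hpq
    simp only [if_true]
    rw [← Finset.sum_mul, ← Finset.mul_sum,
      sum_bool_xor p.1 (fun t => w c t p.2 i * w c t p.2 j)]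
    ring
  · simp [hpq]

theorem vv_sum_inr (w : γ → Bool → Bool → n → ℝ) (m : Bool → ℕ)
    (B : ∀ k, Fin (m k) → n → ℝ) (R : ℕ) (p : Bool × Bool) (l : Fin (m p.2)) (r : Fin R)
    (x y : (Bool × Bool) × n) :
    ∑ a, vv w m B R (Sum.inr ⟨p, l, r⟩) a x * vv w m B R (Sum.inr ⟨p, l, r⟩) a y =
      32 * (if p = x.1 then (if x.1 = y.1 then (R : ℝ)⁻¹ * (B p.2 l x.2 * B p.2 l y.2) else 0)
        else 0) := by
  have hR : (Real.sqrt R)⁻¹ * (Real.sqrt R)⁻¹ = (R : ℝ)⁻¹ := by
    rw [← mul_inv, Real.mul_self_sqrt (Nat.cast_nonneg _)]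
  have hcard : (Fintype.card (Bool × (Bool × Bool → Bool)) : ℝ) = 32 := by
    simp
  obtain ⟨q, i⟩ := x
  obtain ⟨q', j⟩ := y
  simp only [vv, Finset.sum_const, Finset.card_univ, nsmul_eq_mul, hcard]
  by_cases h1 : p = q
  · subst h1
    by_cases h2 : p = q'
    · subst h2
      simp only [if_true]
      linear_combination (32 * B p.2 l i * B p.2 l j) * hR
    · simp [h2]
  · simp [h1]

theorem real_halving (w : γ → Bool → Bool → n → ℝ) (ε : ℝ) (hε : 0 < ε)
    (hw : ∀ c a k, ∑ i, w c a k i ^ 2 ≤ ε)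
    (hQ : ∀ k, ∀ y : n → ℝ, ∑ c, ∑ a, (∑ i, w c a k i * y i)^2 ≤ ∑ i, y i^2) :
    ∃ s : γ → Bool, ∀ y : n → ℝ, ∀ k b,
      2 * ∑ c, (∑ i, w c (xor (s c) b) k i * y i)^2 ≤
        ∑ c, ∑ a, (∑ i, w c a k i * y i)^2 + ((1+Real.sqrt (8*ε))^2 - 1) * ∑ i, y i^2 := by
  classical
  have hcard : (Fintype.card (Bool × (Bool × Bool → Bool)) : ℝ) = 32 := by
    simp
  have hc := fun k => complete (fun c a => w c a k) (hQ k)
  choose m B hB using hc
  -- bound for the norms of the completing vectors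
  obtain ⟨C, hC⟩ : ∃ C : ℝ, ∀ k (l : Fin (m k)), ∑ i, B k l i ^ 2 ≤ C := by
    refine ⟨∑ k, ∑ l, ∑ i, B k l i ^ 2, fun k l => ?_⟩
    refine le_trans ?_ (Finset.single_le_sum (f := fun k => ∑ l, ∑ i, B k l i ^ 2)
      (fun k _ => Finset.sum_nonneg fun l _ => Finset.sum_nonneg fun i _ => sq_nonneg _)
      (Finset.mem_univ k))
    exact Finset.single_le_sum (f := fun l => ∑ i, B k l i ^ 2)
      (fun l _ => Finset.sum_nonneg fun i _ => sq_nonneg _) (Finset.mem_univ l)
  obtain ⟨R, hR⟩ := exists_nat_gt (max (C / (8 * ε)) 1)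
  have hR1 : (1 : ℝ) < R := lt_of_le_of_lt (le_max_right _ _) hR
  have hR0 : (0 : ℝ) < R := by linarith
  have hRC : (R : ℝ)⁻¹ * C ≤ 8 * ε := by
    have : C / (8 * ε) ≤ R := (le_max_left _ _).trans hR.le
    rw [div_le_iff₀ (by positivity)] at this
    rw [inv_mul_le_iff₀ hR0]
    linarith
  have hS1 : ∑ j, (Fintype.card (Bool × (Bool × Bool → Bool)) : ℝ)⁻¹ •
      ∑ a, Matrix.vecMulVec (vv w m B R j a) (vv w m B R j a) = 1 := by
    ext x y
    simp only [Matrix.sum_apply, Matrix.smul_apply, Matrix.vecMulVec_apply, hcard, smul_eq_mul]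
    rw [Fintype.sum_sum_type]
    simp only [vv_sum_inl]
    have hr : ∀ (p : Bool × Bool) (z : Fin (m p.2) × Fin R),
        (32 : ℝ)⁻¹ * ∑ a, vv w m B R (Sum.inr ⟨p, z⟩) a x * vv w m B R (Sum.inr ⟨p, z⟩) a y =
        (if p = x.1 then (if x.1 = y.1 then (R : ℝ)⁻¹ * (B p.2 z.1 x.2 * B p.2 z.1 y.2) else 0)
          else 0) := by
      intro p z
      have := vv_sum_inr w m B R p z.1 z.2 x y
      rw [this]; ring
    rw [Fintype.sum_sigma]
    simp only [hr]
    obtain ⟨p, i⟩ := x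
    obtain ⟨q, j⟩ := y
    rw [Finset.sum_eq_single p]
    · by_cases hpq : p = q
      · subst hpq
        simp only [if_true]
        rw [Fintype.sum_prod_type]
        simp only [Finset.sum_const, Finset.card_univ, Fintype.card_fin, nsmul_eq_mul]
        have hRR : ∀ z : ℝ, (R : ℝ) * ((R : ℝ)⁻¹ * z) = z := fun z => by
          field_simp
        simp only [hRR, hB]
        have h32 : ∀ z : ℝ, (32 : ℝ)⁻¹ * (32 * z) = z := fun z => by
          field_simp
        simp only [h32, Matrix.one_apply, Prod.mk.injEq, true_and]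
        ring
      · have : ((p, i) : (Bool × Bool) × n) ≠ (q, j) := fun h => hpq (congrArg Prod.fst h)
        simp [hpq, Matrix.one_apply, this]
    · intro b _ hb
      simp [hb]
    · simp
  have hS2 : ∀ j, (Fintype.card (Bool × (Bool × Bool → Bool)) : ℝ)⁻¹ *
      ∑ a, ∑ i, vv w m B R j a i ^ 2 ≤ 8 * ε := by
    intro j
    rw [hcard]
    rcases j with j | ⟨p, l, r⟩
    · rw [Finset.sum_comm]
      simp only [sq, vv_sum_inl, if_true]
      rw [← Finset.mul_sum, inv_mul_cancel_left₀ (by norm_num)]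
      rw [Fintype.sum_prod_type]
      have : ∀ q : Bool × Bool, ∑ i, ∑ a, w j a q.2 i * w j a q.2 i ≤ 2 * ε := by
        intro q
        rw [Finset.sum_comm]
        calc ∑ a, ∑ i, w j a q.2 i * w j a q.2 i ≤ ∑ _a : Bool, ε := by
              refine Finset.sum_le_sum fun a _ => ?_
              have := hw j a q.2
              simpa only [sq] using this
          _ = 2 * ε := by simp
      calc ∑ q : Bool × Bool, ∑ i, ∑ a, w j a q.2 i * w j a q.2 i
          ≤ ∑ _q : Bool × Bool, 2 * ε := Finset.sum_le_sum fun q _ => this q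
        _ = 8 * ε := by simp; ring
    · rw [Finset.sum_comm]
      simp only [sq, vv_sum_inr, if_true]
      rw [← Finset.mul_sum, inv_mul_cancel_left₀ (by norm_num)]
      rw [Fintype.sum_prod_type, Finset.sum_eq_single p]
      · simp only [if_true]
        rw [← Finset.mul_sum]
        refine le_trans ?_ hRC
        refine mul_le_mul_of_nonneg_left ?_ (by positivity)
        have := hC p.2 l
        simpa only [sq] using this
      · intro q _ hq
        simp [Ne.symm hq]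
      · simp
  obtain ⟨c, hcc⟩ := NestConn.MSS.mss (vv w m B R) (8 * ε) (by positivity) hS1 hS2
  · refine ⟨fun j => (c (Sum.inl j)).1, fun y k b => ?_⟩
    have h := hcc (fun x => if x.1 = (b, k) then y x.2 else 0)
    have e1 : ∀ j, ∑ x, vv w m B R j (c j) x * (if x.1 = (b, k) then y x.2 else 0) =
        ∑ i, vv w m B R j (c j) ((b, k), i) * y i := by
      intro j
      rw [Fintype.sum_prod_type, Finset.sum_eq_single (b, k)]
      · simp
      · intro q _ hq
        simp [hq]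
      · simp
    have e2 : ∑ x : (Bool × Bool) × n, (if x.1 = (b, k) then y x.2 else 0)^2 = ∑ i, y i^2 := by
      rw [Fintype.sum_prod_type, Finset.sum_eq_single (b, k)]
      · simp
      · intro q _ hq
        simp [hq]
      · simp
    simp only [e1, e2] at h
    rw [Fintype.sum_sum_type] at h
    have e3 : ∑ j, (∑ i, vv w m B R (Sum.inl j) (c (Sum.inl j)) ((b, k), i) * y i)^2 =
        2 * ∑ j, (∑ i, w j (xor (c (Sum.inl j)).1 b) k i * y i)^2 := by
      rw [Finset.mul_sum]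
      refine Finset.sum_congr rfl fun j _ => ?_
      have : ∑ i, vv w m B R (Sum.inl j) (c (Sum.inl j)) ((b, k), i) * y i =
          Real.sqrt 2 * sgr ((c (Sum.inl j)).2 (b, k)) *
            ∑ i, w j (xor (c (Sum.inl j)).1 b) k i * y i := by
        rw [Finset.mul_sum]
        refine Finset.sum_congr rfl fun i _ => ?_
        simp only [vv]; ring
      rw [this, mul_pow, mul_pow, Real.sq_sqrt (by norm_num : (0:ℝ) ≤ 2), sq (sgr _), sgr_sq]
      ring
    have e4 : ∑ j : (Σ p : Bool × Bool, Fin (m p.2) × Fin R),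
        (∑ i, vv w m B R (Sum.inr j) (c (Sum.inr j)) ((b, k), i) * y i)^2 =
        ∑ i, y i ^2 - ∑ c, ∑ a, (∑ i, w c a k i * y i)^2 := by
      rw [Fintype.sum_sigma, Finset.sum_eq_single (b, k)]
      · rw [Fintype.sum_prod_type]
        have : ∀ l : Fin (m k), ∀ r : Fin R,
            (∑ i, vv w m B R (Sum.inr ⟨(b, k), l, r⟩) (c (Sum.inr ⟨(b, k), l, r⟩)) ((b, k), i) *
              y i)^2 = (R : ℝ)⁻¹ * (∑ i, B k l i * y i)^2 := by
          intro l r
          have : ∑ i, vv w m B R (Sum.inr ⟨(b, k), l, r⟩) (c (Sum.inr ⟨(b, k), l, r⟩)) ((b, k), i) *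
              y i = (Real.sqrt R)⁻¹ * ∑ i, B k l i * y i := by
            rw [Finset.mul_sum]
            refine Finset.sum_congr rfl fun i _ => ?_
            simp only [vv, if_true]; ring
          rw [this, mul_pow, inv_pow, Real.sq_sqrt hR0.le]
        simp only [this, Finset.sum_const, Finset.card_univ, Fintype.card_fin, nsmul_eq_mul]
        have hRR : ∀ z : ℝ, (R : ℝ) * ((R : ℝ)⁻¹ * z) = z := fun z => by
          field_simp
        simp only [hRR]
        -- ∑ l (∑ i B l i y i)^2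
        have q1 : ∀ l, (∑ i, B k l i * y i)^2 = ∑ i, ∑ j, (B k l i * B k l j) * (y i * y j) := by
          intro l
          rw [sq, Finset.sum_mul_sum]
          exact Finset.sum_congr rfl fun i _ => Finset.sum_congr rfl fun j _ => by ring
        have q2 : ∀ c a, (∑ i, w c a k i * y i)^2 =
            ∑ i, ∑ j, (w c a k i * w c a k j) * (y i * y j) := by
          intro c a
          rw [sq, Finset.sum_mul_sum]
          exact Finset.sum_congr rfl fun i _ => Finset.sum_congr rfl fun j _ => by ring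
        calc ∑ l, (∑ i, B k l i * y i)^2 = ∑ i, ∑ j, (∑ l, B k l i * B k l j) * (y i * y j) := by
              simp only [q1]
              rw [Finset.sum_comm]
              refine Finset.sum_congr rfl fun i _ => ?_
              rw [Finset.sum_comm]
              exact Finset.sum_congr rfl fun j _ => by rw [Finset.sum_mul]
          _ = ∑ i, ∑ j, ((if i = j then 1 else 0) - ∑ c, ∑ a, w c a k i * w c a k j) *
                (y i * y j) := by
              simp only [hB]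
          _ = ∑ i, ∑ j, (if i = j then 1 else 0) * (y i * y j) -
                ∑ i, ∑ j, (∑ c, ∑ a, w c a k i * w c a k j) * (y i * y j) := by
              simp only [sub_mul, Finset.sum_sub_distrib]
          _ = ∑ i, y i ^2 - ∑ c, ∑ a, (∑ i, w c a k i * y i)^2 := by
              congr 1
              · refine Finset.sum_congr rfl fun i _ => ?_
                simp [sq]
              · simp only [q2, Finset.sum_mul]
                rw [Finset.sum_congr rfl fun i _ => Finset.sum_comm]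
                rw [Finset.sum_comm]
                refine Finset.sum_congr rfl fun c _ => ?_
                rw [Finset.sum_congr rfl fun i _ => Finset.sum_comm]
                rw [Finset.sum_comm]
      · rintro q _ hq
        refine Finset.sum_eq_zero fun j _ => ?_
        have : ∀ i, vv w m B R (Sum.inr ⟨q, j⟩) (c (Sum.inr ⟨q, j⟩)) ((b, k), i) = 0 := by
          intro i
          simp only [vv]
          exact if_neg hq
        simp [this]
      · simp
    rw [e3, e4] at h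
    linarith

/-- real form of a complex vector -/
def rf (x : n → ℂ) : n × Bool → ℝ := fun z => if z.2 then (x z.1).im else (x z.1).re

/-- the two real vectors of a complex vector -/
def rr (u : n → ℂ) (k : Bool) : n × Bool → ℝ := fun z =>
  if k then (if z.2 then (u z.1).re else -(u z.1).im) else (if z.2 then (u z.1).im else (u z.1).re)

theorem rr_false (u x : n → ℂ) : ∑ z, rr u false z * rf x z = (∑ i, star (u i) * x i).re := by
  rw [Fintype.sum_prod_type, Complex.re_sum]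
  refine Finset.sum_congr rfl fun i _ => ?_
  simp [rr, rf]
  ring

theorem rr_true (u x : n → ℂ) : ∑ z, rr u true z * rf x z = (∑ i, star (u i) * x i).im := by
  rw [Fintype.sum_prod_type, Complex.im_sum]
  refine Finset.sum_congr rfl fun i _ => ?_
  simp [rr, rf]

theorem rr_sq (u x : n → ℂ) : ∑ k, (∑ z, rr u k z * rf x z)^2 = ‖∑ i, star (u i) * x i‖^2 := by
  rw [Fintype.sum_bool, rr_true, rr_false, ← Complex.normSq_eq_norm_sq, Complex.normSq_apply]
  ring

theorem rr_norm (u : n → ℂ) (k : Bool) : ∑ z, rr u k z ^2 = ∑ i, ‖u i‖^2 := by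
  rw [Fintype.sum_prod_type]
  refine Finset.sum_congr rfl fun i _ => ?_
  rw [← Complex.normSq_eq_norm_sq, Complex.normSq_apply]
  cases k <;> simp [rr] <;> ring

theorem rf_norm (x : n → ℂ) : ∑ z, rf x z ^2 = ∑ i, ‖x i‖^2 := by
  rw [Fintype.sum_prod_type]
  refine Finset.sum_congr rfl fun i _ => ?_
  rw [← Complex.normSq_eq_norm_sq, Complex.normSq_apply]
  simp [rf]; ring

theorem exists_rf (y : n × Bool → ℝ) : ∃ x : n → ℂ, rf x = y := by
  refine ⟨fun i => ⟨y (i, false), y (i, true)⟩, ?_⟩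
  ext ⟨i, b⟩
  cases b <;> simp [rf]

theorem halving (u : γ → Bool → n → ℂ) (ε : ℝ) (hε : 0 < ε) (hε1 : ε ≤ 1)
    (hu : ∀ c a, ∑ x, ‖u c a x‖^2 ≤ ε)
    (hM : ∀ x : n → ℂ, ∑ c, ∑ a, ‖∑ i, star (u c a i) * x i‖^2 ≤ ∑ i, ‖x i‖^2) :
    ∃ s : γ → Bool, ∀ x : n → ℂ,
      |2 * ∑ c, ‖∑ i, star (u c (s c) i) * x i‖^2 - ∑ c, ∑ a, ‖∑ i, star (u c a i) * x i‖^2|
        ≤ 28 * Real.sqrt ε * ∑ i, ‖x i‖^2 := by
  obtain ⟨s, hs⟩ := real_halving (fun c a k => rr (u c a) k) ε hε
    (fun c a k => by rw [rr_norm]; exact hu c a)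
    (fun k y => by
      obtain ⟨x, rfl⟩ := exists_rf y
      rw [rf_norm]
      refine le_trans (Finset.sum_le_sum fun c _ => Finset.sum_le_sum fun a _ => ?_) (hM x)
      rw [← rr_sq]
      exact Finset.single_le_sum (f := fun k => (∑ z, rr (u c a) k z * rf x z)^2)
        (fun k _ => sq_nonneg _) (Finset.mem_univ k))
  refine ⟨s, fun x => ?_⟩
  have h := hs (rf x)
  simp only [rf_norm] at h
  set S := ∑ i, ‖x i‖^2 with hS
  have hS0 : 0 ≤ S := Finset.sum_nonneg fun i _ => sq_nonneg _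
  have hη : (1 + Real.sqrt (8*ε))^2 - 1 ≤ 14 * Real.sqrt ε := by
    have h8 : Real.sqrt (8 * ε) = Real.sqrt 8 * Real.sqrt ε := Real.sqrt_mul (by norm_num) _
    have h83 : Real.sqrt 8 ≤ 3 := by
      rw [show (3:ℝ) = Real.sqrt (3^2) by rw [Real.sqrt_sq (by norm_num)]]
      exact Real.sqrt_le_sqrt (by norm_num)
    have hq : Real.sqrt ε ^ 2 = ε := Real.sq_sqrt hε.le
    have hq8 : Real.sqrt 8 ^ 2 = 8 := Real.sq_sqrt (by norm_num)
    have hq0 : 0 ≤ Real.sqrt ε := Real.sqrt_nonneg _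
    have hq1 : Real.sqrt ε ≤ 1 := Real.sqrt_le_one.2 hε1
    rw [h8]
    nlinarith [mul_le_mul_of_nonneg_right h83 hq0, mul_nonneg hq0 (sub_nonneg.2 hq1),
      Real.sqrt_nonneg 8]
  have key : ∀ b, 2 * ∑ c, ‖∑ i, star (u c (xor (s c) b) i) * x i‖^2 ≤
      ∑ c, ∑ a, ‖∑ i, star (u c a i) * x i‖^2 + 28 * Real.sqrt ε * S := by
    intro b
    have h0 := h false b
    have h1 := h true b
    have e1 : ∑ c, ‖∑ i, star (u c (xor (s c) b) i) * x i‖^2 =
        ∑ c, (∑ z, rr (u c (xor (s c) b)) true z * rf x z)^2 +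
        ∑ c, (∑ z, rr (u c (xor (s c) b)) false z * rf x z)^2 := by
      rw [← Finset.sum_add_distrib]
      refine Finset.sum_congr rfl fun c _ => ?_
      rw [← rr_sq, Fintype.sum_bool]
    have e2 : ∑ c, ∑ a, ‖∑ i, star (u c a i) * x i‖^2 =
        ∑ c, ∑ a, (∑ z, rr (u c a) true z * rf x z)^2 +
        ∑ c, ∑ a, (∑ z, rr (u c a) false z * rf x z)^2 := by
      rw [← Finset.sum_add_distrib]
      refine Finset.sum_congr rfl fun c _ => ?_
      rw [← Finset.sum_add_distrib]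
      refine Finset.sum_congr rfl fun a _ => ?_
      rw [← rr_sq, Fintype.sum_bool]
    rw [e1, e2]
    have := mul_le_mul_of_nonneg_right hη hS0
    nlinarith [h0, h1, this]
  have k0 := key false
  have k1 := key true
  have e0 : ∀ c, ‖∑ i, star (u c (xor (s c) true) i) * x i‖^2 =
      ∑ a, ‖∑ i, star (u c a i) * x i‖^2 - ‖∑ i, star (u c (s c) i) * x i‖^2 := by
    intro c
    rw [Fintype.sum_bool]
    cases s c <;> simp
  simp only [e0, Finset.sum_sub_distrib, Bool.xor_false] at k0 k1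
  rw [abs_le]
  constructor <;> linarith

theorem form_smul (r : ℝ) (u x : n → ℂ) :
    ‖∑ i, star (((r : ℂ) • u) i) * x i‖^2 = r^2 * ‖∑ i, star (u i) * x i‖^2 := by
  have : ∑ i, star (((r : ℂ) • u) i) * x i = (r : ℂ) * ∑ i, star (u i) * x i := by
    rw [Finset.mul_sum]
    refine Finset.sum_congr rfl fun i _ => ?_
    simp [mul_assoc]
  rw [this, norm_mul, mul_pow, Complex.norm_real, Real.norm_eq_abs, sq_abs]

theorem norm_smul_form (r : ℝ) (u : n → ℂ) :
    ∑ i, ‖((r : ℂ) • u) i‖^2 = r^2 * ∑ i, ‖u i‖^2 := by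
  rw [Finset.mul_sum]
  refine Finset.sum_congr rfl fun i _ => ?_
  rw [Pi.smul_apply, smul_eq_mul, norm_mul, mul_pow, Complex.norm_real, Real.norm_eq_abs, sq_abs]

theorem sel_ind (T : ℝ) (hT : 0 < T) (k : ℕ) : ∀ (γ A : Type) [Fintype γ] [DecidableEq γ]
    [Fintype A] [DecidableEq A], Fintype.card A = 2^k → ∀ (u : γ → A → n → ℂ) (ε m : ℝ),
    0 < ε → 0 ≤ m → (∀ c a, ∑ i, ‖u c a i‖^2 ≤ ε) →
    (∀ x : n → ℂ, ∑ c, ∑ a, ‖∑ i, star (u c a i) * x i‖^2 ≤ m * ∑ i, ‖x i‖^2) →
    m + 28 * Real.sqrt T * ∑ j ∈ Finset.range k, Real.sqrt (2^j * ε) ≤ T →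
    ∃ s : γ → A, ∀ x : n → ℂ,
      |2^k * ∑ c, ‖∑ i, star (u c (s c) i) * x i‖^2 - ∑ c, ∑ a, ‖∑ i, star (u c a i) * x i‖^2|
        ≤ 28 * Real.sqrt T * (∑ j ∈ Finset.range k, Real.sqrt (2^j * ε)) * ∑ i, ‖x i‖^2 := by
  induction k with
  | zero =>
    intro γ A _ _ _ _ hA u ε m hε hm hu hQ hmT
    rw [pow_zero] at hA
    obtain ⟨a0, ha0⟩ := Fintype.card_eq_one_iff.1 hA
    refine ⟨fun _ => a0, fun x => ?_⟩
    have : ∀ c, ∑ a, ‖∑ i, star (u c a i) * x i‖^2 = ‖∑ i, star (u c a0 i) * x i‖^2 := by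
      intro c
      rw [Finset.sum_eq_single a0]
      · intro b _ hb
        exact absurd (ha0 b) hb
      · simp
    simp only [this, Finset.range_zero, Finset.sum_empty, pow_zero, one_mul, sub_self, abs_zero,
      mul_zero, zero_mul, le_refl]
  | succ k ih =>
    intro γ A _ _ _ _ hA u ε m hε hm hu hQ hmT
    have hcard : Fintype.card A = Fintype.card (Fin (2^k) × Bool) := by
      rw [hA]; simp [pow_succ]
    let e := Fintype.equivOfCardEq hcard
    rw [Finset.sum_range_succ'] at hmT ⊢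
    have hs2 : ∀ j : ℕ, Real.sqrt (2^(j+1) * ε) = Real.sqrt (2^j * (2*ε)) := by
      intro j; congr 1; ring
    simp only [hs2, pow_zero, one_mul] at hmT ⊢
    set SS := ∑ j ∈ Finset.range k, Real.sqrt (2^j * (2*ε)) with hSSd
    have hSS0 : 0 ≤ SS := Finset.sum_nonneg fun j _ => Real.sqrt_nonneg _
    have hT0 : 0 < Real.sqrt T := Real.sqrt_pos.2 hT
    have hTT : Real.sqrt T ^ 2 = T := Real.sq_sqrt hT.le
    have hε0 : 0 < Real.sqrt ε := Real.sqrt_pos.2 hε
    have hεε : Real.sqrt ε ^ 2 = ε := Real.sq_sqrt hε.le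
    have hεT : ε ≤ T := by
      have h1 : 28 * Real.sqrt T * Real.sqrt ε ≤ T := by
        have : 0 ≤ 28 * Real.sqrt T * SS := by positivity
        nlinarith
      have h2 : Real.sqrt ε ≤ Real.sqrt T := by
        by_contra hcon
        push Not at hcon
        nlinarith [mul_pos hT0 hε0]
      exact (Real.sqrt_le_sqrt_iff hT.le).1 h2
    have hmT' : m ≤ T := by
      have : 0 ≤ 28 * Real.sqrt T * (SS + Real.sqrt ε) := by positivity
      linarith
    obtain ⟨s1, hs1⟩ := halving (γ := γ × Fin (2^k)) (n := n)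
      (fun c t => (((Real.sqrt T)⁻¹ : ℝ) : ℂ) • u c.1 (e.symm (c.2, t))) (ε / T) (by positivity)
      ((div_le_one hT).2 hεT)
      (fun c t => by
        rw [norm_smul_form, inv_pow, hTT, div_eq_inv_mul]
        exact mul_le_mul_of_nonneg_left (hu _ _) (by positivity))
      (fun x => by
        simp only [form_smul, inv_pow, hTT]
        have h1 := hQ x
        have e1 : ∑ c : γ × Fin (2^k), ∑ t, T⁻¹ * ‖∑ i, star (u c.1 (e.symm (c.2, t)) i) * x i‖^2
            = T⁻¹ * ∑ c, ∑ a, ‖∑ i, star (u c a i) * x i‖^2 := by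
          simp only [← Finset.mul_sum]
          congr 1
          rw [Fintype.sum_prod_type]
          refine Finset.sum_congr rfl fun c _ => ?_
          rw [← Fintype.sum_prod_type (f := fun z : Fin (2^k) × Bool =>
            ‖∑ i, star (u c (e.symm z) i) * x i‖^2)]
          exact Equiv.sum_comp e.symm (fun a => ‖∑ i, star (u c a i) * x i‖^2)
        rw [e1, inv_mul_le_iff₀ hT]
        refine h1.trans ?_
        exact mul_le_mul_of_nonneg_right hmT' (Finset.sum_nonneg fun i _ => sq_nonneg _))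
    simp only [form_smul, inv_pow, hTT] at hs1
    -- rescale
    have hs1' : ∀ x : n → ℂ,
        |∑ c, ∑ b, 2 * ‖∑ i, star (u c (e.symm (b, s1 (c, b))) i) * x i‖^2 -
          ∑ c, ∑ a, ‖∑ i, star (u c a i) * x i‖^2| ≤
          28 * Real.sqrt T * Real.sqrt ε * ∑ i, ‖x i‖^2 := by
      intro x
      have h := hs1 x
      have e1 : ∑ c : γ × Fin (2^k), ∑ t, T⁻¹ * ‖∑ i, star (u c.1 (e.symm (c.2, t)) i) * x i‖^2
            = T⁻¹ * ∑ c, ∑ a, ‖∑ i, star (u c a i) * x i‖^2 := by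
        simp only [← Finset.mul_sum]
        congr 1
        rw [Fintype.sum_prod_type]
        refine Finset.sum_congr rfl fun c _ => ?_
        rw [← Fintype.sum_prod_type (f := fun z : Fin (2^k) × Bool =>
          ‖∑ i, star (u c (e.symm z) i) * x i‖^2)]
        exact Equiv.sum_comp e.symm (fun a => ‖∑ i, star (u c a i) * x i‖^2)
      have e2 : 2 * ∑ c : γ × Fin (2^k),
          T⁻¹ * ‖∑ i, star (u c.1 (e.symm (c.2, s1 c)) i) * x i‖^2 =
          T⁻¹ * ∑ c, ∑ b, 2 * ‖∑ i, star (u c (e.symm (b, s1 (c, b))) i) * x i‖^2 := by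
        rw [Fintype.sum_prod_type]
        simp only [← Finset.mul_sum]
        ring
      rw [e1, e2, ← mul_sub, abs_mul, abs_of_pos (by positivity : (0:ℝ) < T⁻¹),
        inv_mul_le_iff₀ hT] at h
      refine h.trans (le_of_eq ?_)
      rw [Real.sqrt_div hε.le]
      field_simp
      rw [hTT]
    obtain ⟨s2, hs2'⟩ := ih γ (Fin (2^k)) (by simp)
      (fun c b => ((Real.sqrt 2 : ℝ) : ℂ) • u c (e.symm (b, s1 (c, b)))) (2 * ε)
      (m + 28 * Real.sqrt T * Real.sqrt ε) (by positivity) (by positivity)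
      (fun c b => by
        rw [norm_smul_form, Real.sq_sqrt (by norm_num : (0:ℝ) ≤ 2)]
        exact mul_le_mul_of_nonneg_left (hu _ _) (by norm_num))
      (fun x => by
        simp only [form_smul, Real.sq_sqrt (by norm_num : (0:ℝ) ≤ 2)]
        have h1 := hs1' x
        have h2 := hQ x
        rw [abs_le] at h1
        rw [add_mul]
        linarith [h1.2])
      (by linarith)
    refine ⟨fun c => e.symm (s2 c, s1 (c, s2 c)), fun x => ?_⟩
    have h1 := hs1' x
    have h2 := hs2' x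
    simp only [form_smul, Real.sq_sqrt (by norm_num : (0:ℝ) ≤ 2)] at h2
    have e3 : (2:ℝ)^(k+1) * ∑ c, ‖∑ i, star (u c (e.symm (s2 c, s1 (c, s2 c))) i) * x i‖^2 =
        2^k * ∑ c, 2 * ‖∑ i, star (u c (e.symm (s2 c, s1 (c, s2 c))) i) * x i‖^2 := by
      rw [← Finset.mul_sum]; ring
    rw [e3]
    rw [abs_le] at h1 h2 ⊢
    constructor <;> nlinarith [h1.1, h1.2, h2.1, h2.2]

theorem sum_sqrt_pow_le (ε : ℝ) (hε : 0 < ε) (k : ℕ) :
    ∑ j ∈ Finset.range k, Real.sqrt (2^j * ε) ≤ 3 * (Real.sqrt (2^k * ε)) := by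
  induction k with
  | zero => simp
  | succ k ih =>
    rw [Finset.sum_range_succ]
    have h1 : Real.sqrt (2^(k+1) * ε) = Real.sqrt 2 * Real.sqrt (2^k * ε) := by
      rw [← Real.sqrt_mul (by norm_num)]
      congr 1; ring
    rw [h1]
    have h2 : (4/3 : ℝ) ≤ Real.sqrt 2 := by
      rw [show (4/3:ℝ) = Real.sqrt ((4/3)^2) by rw [Real.sqrt_sq (by norm_num)]]
      exact Real.sqrt_le_sqrt (by norm_num)
    nlinarith [Real.sqrt_nonneg (2^k * ε)]

/-- finite selection -/
theorem selection_fin (M : ℝ) (hM : 0 ≤ M) (k : ℕ) (γ A : Type)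
    [Fintype γ] [DecidableEq γ] [Fintype A] [DecidableEq A] (hA : Fintype.card A = 2^k)
    (u : γ → A → n → ℂ) (δ : ℝ) (hδ : 0 < δ) (hk : 2^k * δ^2 ≤ 1)
    (hu : ∀ c a, ∑ i, ‖u c a i‖^2 ≤ δ^2)
    (hQ : ∀ x : n → ℂ, ∑ c, ∑ a, ‖∑ i, star (u c a i) * x i‖^2 ≤ M * ∑ i, ‖x i‖^2) :
    ∃ s : γ → A, ∀ x : n → ℂ,
      |2^k * ∑ c, ‖∑ i, star (u c (s c) i) * x i‖^2 - ∑ c, ∑ a, ‖∑ i, star (u c a i) * x i‖^2|
        ≤ 84 * (Real.sqrt M + 84) * Real.sqrt (2^k) * δ * ∑ i, ‖x i‖^2 := by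
  set T : ℝ := (Real.sqrt M + 84)^2 with hT
  have hM0 := Real.sqrt_nonneg M
  have hTpos : 0 < T := by positivity
  have hTs : Real.sqrt T = Real.sqrt M + 84 := Real.sqrt_sq (by positivity)
  have hsum := sum_sqrt_pow_le (δ^2) (by positivity) k
  have hsq : Real.sqrt (2^k * δ^2) = Real.sqrt (2^k) * δ := by
    rw [Real.sqrt_mul (by positivity), Real.sqrt_sq hδ.le]
  have hle1 : Real.sqrt (2^k * δ^2) ≤ 1 := Real.sqrt_le_one.2 hk
  obtain ⟨s, hs⟩ := sel_ind T hTpos k γ A hA u (δ^2) M (by positivity) hM hu hQ (by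
    have hMM : Real.sqrt M ^2 = M := Real.sq_sqrt hM
    rw [hTs, hT]
    have h3 : ∑ j ∈ Finset.range k, Real.sqrt (2^j * δ^2) ≤ 3 := hsum.trans (by linarith)
    nlinarith [mul_le_mul_of_nonneg_left h3 (by positivity : 0 ≤ 28 * (Real.sqrt M + 84))])
  refine ⟨s, fun x => (hs x).trans ?_⟩
  have hS0 : 0 ≤ ∑ i, ‖x i‖^2 := Finset.sum_nonneg fun i _ => sq_nonneg _
  refine mul_le_mul_of_nonneg_right ?_ hS0
  rw [hsq] at hsum
  calc 28 * Real.sqrt T * ∑ j ∈ Finset.range k, Real.sqrt (2^j * δ^2)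
      ≤ 28 * Real.sqrt T * (3 * (Real.sqrt (2^k) * δ)) :=
        mul_le_mul_of_nonneg_left hsum (by positivity)
    _ = 84 * (Real.sqrt M + 84) * Real.sqrt (2^k) * δ := by rw [hTs]; ring

theorem fin_selection (M : ℝ) : ∃ C : ℝ, 0 < C ∧ ∀ {γ κ : Type} [Fintype γ] [DecidableEq γ]
    [Fintype κ] [DecidableEq κ]
    (k : ℕ) (ε : ℝ) (u : γ → Fin (2 ^ k) → κ → ℂ), 0 < ε → (2:ℝ) ^ k * ε ≤ 1 →
    (∀ c a, ∑ x, ‖u c a x‖ ^ 2 ≤ ε) →
    (∀ x : κ → ℂ, ∑ c, ∑ a, ‖∑ i, star (u c a i) * x i‖ ^ 2 ≤ M * ∑ i, ‖x i‖ ^ 2) →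
    ∃ s : γ → Fin (2 ^ k), ∀ x : κ → ℂ,
      |(2:ℝ) ^ k * ∑ c, ‖∑ i, star (u c (s c) i) * x i‖ ^ 2 -
        ∑ c, ∑ a, ‖∑ i, star (u c a i) * x i‖ ^ 2|
        ≤ C * Real.sqrt ((2:ℝ) ^ k * ε) * ∑ i, ‖x i‖ ^ 2 := by
  refine ⟨84 * (Real.sqrt (max M 0) + 84), by positivity, ?_⟩
  intro γ κ _ _ _ _ k ε u hε hk hu hQ
  have hsq : Real.sqrt ε ^ 2 = ε := Real.sq_sqrt hε.le
  obtain ⟨s, hs⟩ := selection_fin (max M 0) (le_max_right _ _) k γ (Fin (2^k)) (by simp) u
    (Real.sqrt ε) (Real.sqrt_pos.2 hε) (by rw [hsq]; exact hk) (by rw [hsq]; exact hu)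
    (fun x => (hQ x).trans (mul_le_mul_of_nonneg_right (le_max_left _ _)
      (Finset.sum_nonneg fun i _ => sq_nonneg _)))
  refine ⟨s, fun x => (hs x).trans (le_of_eq ?_)⟩
  rw [Real.sqrt_mul (by positivity)]
  ring

end Nest57
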